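import Pool.Agent.H97.RL.Targets

set_option autoImplicit false

namespace Pool.Agent.H14.RLM

open Finset Pool.Agent.H97.RK Pool.Agent.H97.RL

open Classical in
/-- the line above `j` and the list of the answers -/
noncomputable def anls {n : ℕ} (S r : ℕ) (rule : ℕ → Rule n) (U : Finset ℕ) (j : ℕ) :
    ℕ × List (Fin n × Bool) :=
  if j ∈ U ∨ j = r then (j, []) else
    if h : ∃ p : ℕ × Bool, (p.1 < S ∧ j < p.1) ∧ Use rule j p.1 p.2 then
      (match rule h.choose.1 with
      | Rule.ax => anls S r rule U h.choose.1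
      | Rule.weak _ => anls S r rule U h.choose.1
      | Rule.res x _ _ => ((anls S r rule U h.choose.1).1,
          (x, h.choose.2) :: (anls S r rule U h.choose.1).2))
    else (j, [])
termination_by S - j
decreasing_by
  all_goals
    have := h.choose_spec.1
    omega

theorem anls_base {n : ℕ} {S r : ℕ} {rule : ℕ → Rule n} {U : Finset ℕ} {j : ℕ}
    (h : j ∈ U ∨ j = r) : anls S r rule U j = (j, []) := by
  rw [anls, if_pos h]

theorem anls_step {n : ℕ} {S r : ℕ} {rule : ℕ → Rule n} {U : Finset ℕ} (hO : Once S rule U)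
    {i j : ℕ} {b : Bool} (hi : i < S) (hji : j < i) (hU : j ∉ U) (hr : j ≠ r)
    (hax : rule j ≠ Rule.ax) (hu : Use rule j i b) :
    anls S r rule U j = match rule i with
      | Rule.ax => anls S r rule U i
      | Rule.weak _ => anls S r rule U i
      | Rule.res x _ _ => ((anls S r rule U i).1, (x, b) :: (anls S r rule U i).2) := by
  have h : ∃ p : ℕ × Bool, (p.1 < S ∧ j < p.1) ∧ Use rule j p.1 p.2 :=
    ⟨(i, b), ⟨hi, hji⟩, hu⟩
  have e : h.choose = (i, b) := by
    obtain ⟨h1, h2⟩ := h.choose_spec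
    obtain ⟨h3, h4⟩ := hO j (hji.trans hi) hU hax _ _ _ _ h1.1 hi h2 hu
    exact Prod.ext h3 h4
  rw [anls, if_neg (by tauto), dif_pos h, e]

theorem pf_TRE : T_TRE := by
  intro n k m F S r line rule hR U hO
  refine ⟨fun j => (anls S r rule U j).1, fun j => (anls S r rule U j).2, ?_, ?_, ?_, ?_⟩
  · intro j h
    simp only [anls_base h, and_self]
  · intro i j hi hU hr hax hw
    have hC := hR.2.2 i hi
    rw [hw] at hC
    have h := anls_step (r := r) hO hi hC.1 hU hr hax (b := false) (Or.inl ⟨hw, rfl⟩)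
    rw [hw] at h
    simp only [h, and_self]
  · intro i j a x hi hU hr hax hw
    have hC := hR.2.2 i hi
    rw [hw] at hC
    have h := anls_step (r := r) hO hi hC.1 hU hr hax (b := false)
      (Or.inr (Or.inl ⟨x, a, hw, rfl⟩))
    rw [hw] at h
    simp only [h, and_self]
  · intro i j a x hi hU hr hax hw
    have hC := hR.2.2 i hi
    rw [hw] at hC
    have h := anls_step (r := r) hO hi hC.2.1 hU hr hax (b := true)
      (Or.inr (Or.inr ⟨x, a, hw, rfl⟩))
    rw [hw] at h
    simp only [h, and_self]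

end Pool.Agent.H14.RLM
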